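import Pool.Agent.Lib.MP_4fbe7c_an.RS.Iface
import Pool.Agent.Lib.MP_4fbe7c_an.SD.H95.Tools
import Pool.Agent.Lib.MP_4fbe7c_an.SD.SteadyB
import Pool.Agent.Lib.MP_4fbe7c_an.FC.H54.Core
import Pool.Agent.Lib.MP_4fbe7c_an.WH.H95.Basic

/-!
Module REX (helper54): extinction of all species but `i₀`, `d i₀` small.
-/

set_option autoImplicit false

open Set MeasureTheory

namespace Pool.Agent.Lib.MP_4fbe7c_an.RS.H54

open Pool.Agent.Lib.MP_4fbe7c_an.SD Pool.Agent.Lib.MP_4fbe7c_an.FC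
open Pool.Agent.Lib.MP_4fbe7c_an.WH Pool.Agent.Lib.MP_4fbe7c_an.RS

/-- The final inequality. -/
theorem rex_alg {Xq Rq W V V' S Lam' y₀ δ m₀ c₃ C₃ C₆ c₇ σ L Z : ℝ} (hL : 0 < L) (hZ : 0 < Z)
    (hX : 0 ≤ Xq) (hR : 0 ≤ Rq) (hW : 0 ≤ W) (hV : 0 < V) (hδ : 0 < δ) (hδ1 : δ ≤ 1)
    (hC₆ : 0 < C₆) (hc₇ : 0 < c₇) (h1 : c₇ ≤ 1 / 2) (h2 : c₇ ≤ m₀ / 16) (h3 : c₇ ≤ c₃)
    (hσ : 0 ≤ σ) (hσ1 : σ ≤ m₀ / 32) (hσ2 : σ ≤ c₇ / (4 * C₆ * L * Z ^ 2))
    (hco : V / (1 + V) ≤ C₆ * (Xq + Rq + W))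
    (hV' : V' ≤ -(1 / 2 * Xq) - δ * m₀ / 8 * Rq + δ * (-(c₃ * W) + C₃ * S))
    (hla : C₃ * δ * ((1 + 1 / V) * S) ≤ Lam' + σ * δ * y₀)
    (hy : y₀ ≤ 2 * L * Z ^ 2 + 2 * Rq) :
    (1 + 1 / V) * V' - Lam' ≤ -(δ * c₇ / (2 * C₆)) := by
  obtain ⟨P, hP⟩ : ∃ P : ℝ, P = 1 + 1 / V := ⟨_, rfl⟩
  rw [← hP] at hla ⊢
  have hiV : 0 < 1 / V := by positivity
  have hP1 : 1 ≤ P := by rw [hP]; linarith
  have hP0 : 0 < P := by linarith
  obtain ⟨Q, hQ⟩ : ∃ Q : ℝ, Q = Xq + Rq + W := ⟨_, rfl⟩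
  have hQ0 : 0 ≤ Q := by rw [hQ]; positivity
  -- `1 ≤ P C₆ Q`
  have e1 : P * (V / (1 + V)) = 1 := by
    rw [hP]; field_simp; ring
  have e2 : 1 ≤ P * (C₆ * Q) := by
    rw [← e1, hQ]
    exact mul_le_mul_of_nonneg_left hco hP0.le
  have e3 : c₇ / C₆ ≤ P * c₇ * Q := by
    rw [div_le_iff₀ hC₆]
    have := mul_le_mul_of_nonneg_left e2 hc₇.le
    linarith
  have e4 := mul_le_mul_of_nonneg_left hV' hP0.le
  have e5 : σ * δ * y₀ ≤ σ * δ * (2 * L * Z ^ 2 + 2 * Rq) :=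
    mul_le_mul_of_nonneg_left hy (by positivity)
  have e6 : σ * δ * (2 * Rq) ≤ P * (δ * (m₀ / 16) * Rq) := by
    have a1 : σ * (δ * (2 * Rq)) ≤ m₀ / 32 * (δ * (2 * Rq)) :=
      mul_le_mul_of_nonneg_right hσ1 (by positivity)
    have hm0 : 0 ≤ m₀ := by linarith
    have a2 : 1 * (δ * (m₀ / 16) * Rq) ≤ P * (δ * (m₀ / 16) * Rq) :=
      mul_le_mul_of_nonneg_right hP1 (by positivity)
    linarith
  have e7 : σ * δ * (2 * L * Z ^ 2) ≤ δ * c₇ / (2 * C₆) := by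
    have a1 : σ * (δ * (2 * L * Z ^ 2)) ≤
        c₇ / (4 * C₆ * L * Z ^ 2) * (δ * (2 * L * Z ^ 2)) :=
      mul_le_mul_of_nonneg_right hσ2 (by positivity)
    have a2 : c₇ / (4 * C₆ * L * Z ^ 2) * (δ * (2 * L * Z ^ 2)) = δ * c₇ / (2 * C₆) := by
      field_simp
      ring
    linarith
  have e8 : P * (δ * c₇ * Q) ≤
      P * (1 / 2 * Xq + δ * (m₀ / 16) * Rq + δ * c₃ * W) := by
    refine mul_le_mul_of_nonneg_left ?_ hP0.le
    have a1 : δ * c₇ * Xq ≤ 1 / 2 * Xq := by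
      refine mul_le_mul_of_nonneg_right ?_ hX
      nlinarith
    have a2 : δ * c₇ * Rq ≤ δ * (m₀ / 16) * Rq :=
      mul_le_mul_of_nonneg_right (mul_le_mul_of_nonneg_left h2 hδ.le) hR
    have a3 : δ * c₇ * W ≤ δ * c₃ * W :=
      mul_le_mul_of_nonneg_right (mul_le_mul_of_nonneg_left h3 hδ.le) hW
    rw [hQ]
    linarith
  have e9 : δ * (c₇ / C₆) ≤ δ * (P * c₇ * Q) := mul_le_mul_of_nonneg_left e3 hδ.le
  have e10 : δ * c₇ / (2 * C₆) = δ * (c₇ / C₆) / 2 := by field_simp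
  rw [e10] at e7 ⊢
  nlinarith

theorem int_zero {L : ℝ} (hL : 0 < L) {f : ℝ → ℝ} (hf : ∀ x ∈ Icc 0 L, f x = 0) :
    (∫ x in (0)..L, f x) = 0 := by
  have h : (∫ x in (0)..L, f x) = ∫ _x in (0)..L, (0 : ℝ) := by
    refine intervalIntegral.integral_congr fun x hx => ?_
    rw [uIcc_of_le hL.le] at hx
    exact hf x hx
  rw [h, intervalIntegral.integral_zero]

theorem rex (h0 : PaStatement) (h1 : RdvStatement) (h2 : RgrStatement) (h3 : RcoStatement)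
    (h4 : RzsStatement) (h5 : RzlStatement) (h6 : RlgStatement) (h7 : RlaStatement)
    (h8 : ThtStatement) (h9 : YBdStatement) (h10 : ExSStatement) : RexStatement := by
  intro L M D m m' hL hmd hmc' hne hM hM0 hpos hD
  have hmc : ContinuousOn m (Icc 0 L) := H95.DerivOn.cont hmd
  have h0m : (0 : ℝ) ∈ Icc 0 L := ⟨le_rfl, hL.le⟩
  -- the constants
  obtain ⟨x₀, hx₀, hmin⟩ := isCompact_Icc.exists_isMinOn ⟨0, h0m⟩ hmc
  obtain ⟨m₀, hm₀e⟩ : ∃ m₀ : ℝ, m₀ = m x₀ := ⟨_, rfl⟩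
  have hm₀ : 0 < m₀ := by rw [hm₀e]; exact hpos x₀ hx₀
  have hm₀m : ∀ x ∈ Icc 0 L, m₀ ≤ m x := fun x hx => by rw [hm₀e]; exact hmin hx
  obtain ⟨P, hP0, hP⟩ := H95.exists_bound hmc'
  obtain ⟨c₂, δ₁, hc₂, hδ₁, hzl⟩ := h5 L M m m' hL hmd hmc' hne hM hM0 hpos
  obtain ⟨Z, hZe⟩ : ∃ Z : ℝ, Z = P / m₀ := ⟨_, rfl⟩
  have hZ : 0 < Z := by rw [hZe]; positivity
  obtain ⟨c₃, C₃, hc₃, hC₃, hgr⟩ := h2 L Z c₂ hL hZ hc₂
  obtain ⟨C₆, hC₆, hcoer⟩ := h3 L m₀ M hL hm₀ hM0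
  obtain ⟨c₇, hc₇e⟩ : ∃ c₇ : ℝ, c₇ = min (1 / 2) (min (m₀ / 16) c₃) := ⟨_, rfl⟩
  have hc₇ : 0 < c₇ := by rw [hc₇e]; positivity
  have hc₇1 : c₇ ≤ 1 / 2 := by rw [hc₇e]; exact min_le_left _ _
  have hc₇2 : c₇ ≤ m₀ / 16 := by rw [hc₇e]; exact (min_le_right _ _).trans (min_le_left _ _)
  have hc₇3 : c₇ ≤ c₃ := by rw [hc₇e]; exact (min_le_right _ _).trans (min_le_right _ _)
  obtain ⟨σ₀, hσ₀e⟩ : ∃ σ₀ : ℝ, σ₀ = min (m₀ / 32) (c₇ / (4 * C₆ * L * Z ^ 2)) := ⟨_, rfl⟩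
  have hσ₀ : 0 < σ₀ := by rw [hσ₀e]; positivity
  obtain ⟨κ, δ₂, hκ, hδ₂, hla⟩ := h7 L M D σ₀ C₃ hL hM0 hD hσ₀ hC₃
  refine ⟨κ, min (min 1 δ₁) (min δ₂ (3 * m₀ / (20 * Z ^ 2))), hκ, by positivity, ?_⟩
  intro N d u v w i₀ j θ θ' θ'' hX hθ hdi hpi hsum hj hpj
  have hd := hX.hd i₀
  have hd1 : d i₀ ≤ 1 := hdi.trans ((min_le_left _ _).trans (min_le_left _ _))
  have hd2 : d i₀ ≤ δ₁ := hdi.trans ((min_le_left _ _).trans (min_le_right _ _))
  have hd3 : d i₀ ≤ δ₂ := hdi.trans ((min_le_right _ _).trans (min_le_left _ _))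
  have hd4 : 20 * d i₀ * Z ^ 2 ≤ 3 * m₀ := by
    have a1 : d i₀ ≤ 3 * m₀ / (20 * Z ^ 2) :=
      hdi.trans ((min_le_right _ _).trans (min_le_right _ _))
    rw [le_div_iff₀ (by positivity)] at a1
    linarith
  -- the steady state
  have hΛ : ∫ x in (0)..L, m' x ^ 2 ≤ ∫ x in (0)..L, m' x ^ 2 := le_rfl
  obtain ⟨hθm, -, -⟩ := h8 L m₀ _ (d i₀) m m' θ θ' θ'' hL hm₀ hd hmd hmc' hm₀m hΛ hθ
  have hθM : ∀ x ∈ Icc 0 L, θ x ≤ M :=
    steady_le hL hd (fun x hx => (le_abs_self _).trans (hM x hx)) hθ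
  have hζ : ∀ x ∈ Icc 0 L, |θ' x / θ x| ≤ Z := by
    rw [hZe]
    exact h4 L m₀ P (d i₀) m m' θ θ' θ'' hL hm₀ hd hmd hP hθ hθm
  have hζ2 := hzl (d i₀) θ θ' θ'' hd hd2 hθ
  have cθ : ContinuousOn θ (Icc 0 L) := H95.st_c0 hθ
  have cθ' : ContinuousOn θ' (Icc 0 L) := H95.st_c1 hθ
  have cζ : ContinuousOn (fun x => θ' x / θ x) (Icc 0 L) :=
    cθ'.div cθ fun x hx => (hθ.pos x hx).ne'
  -- the auxiliary functional
  obtain ⟨σ, C', T₁, Λ, Λ', hσ, hσ0, hT₁, hΛa⟩ := hla m N d u v w i₀ hX hpi hd3 hsum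
  have hσ1 : σ ≤ m₀ / 32 := hσ0.trans (by rw [hσ₀e]; exact min_le_left _ _)
  have hσ2 : σ ≤ c₇ / (4 * C₆ * L * Z ^ 2) := hσ0.trans (by rw [hσ₀e]; exact min_le_right _ _)
  obtain ⟨K, T₂, hT₂, hK⟩ := h9 L M m N d u v w j hX hpj
  obtain ⟨T, hTe⟩ : ∃ T : ℝ, T = max T₁ T₂ := ⟨_, rfl⟩
  have hT₁T : T₁ ≤ T := by rw [hTe]; exact le_max_left _ _
  have hT₂T : T₂ ≤ T := by rw [hTe]; exact le_max_right _ _
  have hT0 : 0 < T := lt_of_lt_of_le hT₁ hT₁T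
  have hjm : j ∈ Finset.univ.erase i₀ := Finset.mem_erase.2 ⟨hj, Finset.mem_univ j⟩
  have hlg := fun t ht k => h6 L M m₀ m θ N d u v w hX hm₀ cθ hθm t ht k
  -- positivity of `Vr`
  have hmuV : ∀ t, 0 < t → mu L u j t ≤ Vr L θ u i₀ t := by
    intro t ht
    refine le_trans ?_ ((hlg t ht i₀).2.2.2 hpi).2.2.2.2.1
    exact Finset.single_le_sum (f := fun k => mu L u k t) (fun k _ => (hlg t ht k).1) hjm
  have hVpos : ∀ t, 0 < t → 0 < Vr L θ u i₀ t := fun t ht =>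
    lt_of_lt_of_le ((hlg t ht j).2.2.2 hpj).1 (hmuV t ht)
  -- the differential inequality
  have key : ∀ t, T ≤ t → ∃ F' : ℝ,
      HasDerivAt (fun t => Vr L θ u i₀ t + Real.log (Vr L θ u i₀ t) - Λ t) F' t ∧
      F' ≤ -(d i₀ * c₇ / (2 * C₆)) := by
    intro t htT
    have ht : 0 < t := lt_of_lt_of_le hT0 htT
    obtain ⟨V', hV1, hV2⟩ := h1 L M m₀ Z m θ θ' θ'' N d u v w i₀ hX hθ hm₀ hθm hζ hd4 hpi t ht
    obtain ⟨hl1, hl2, hl3⟩ := hΛa t (hT₁T.trans htT)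
    have hV0 := hVpos t ht
    have hWV : ∑ k ∈ Finset.univ.erase i₀, mu L u k t ≤ Vr L θ u i₀ t :=
      ((hlg t ht i₀).2.2.2 hpi).2.2.2.2.1
    have hl4 := hl3 _ hV0 hWV
    refine ⟨V' + V' / Vr L θ u i₀ t - Λ' t, (hV1.add (hV1.log hV0.ne')).sub hl1, ?_⟩
    have su : ∀ k, ContinuousOn (u k t) (Icc 0 L) := fun k =>
      slice ((hX.sol.cu k).mono (prod_mono Ioi_subset_Ici_self subset_rfl)) (mem_Ioi.2 ht)
    have sv : ∀ k, ContinuousOn (v k t) (Icc 0 L) := fun k =>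
      slice (hX.sol.cv k) (mem_Ioi.2 ht)
    have hu0 : ∀ k, ∀ x ∈ Icc 0 L, 0 ≤ u k t x := fun k x hx =>
      nonneg hL hX.hm hX.hd hX.sol k t ht.le x hx
    -- each species
    have hk : ∀ k ∈ Finset.univ.erase i₀, (∫ x in (0)..L, θ' x / θ x * v k t x) -
        1 / 3 * (∫ x in (0)..L, (θ' x / θ x) ^ 2 * u k t x) ≤
        -(c₃ * mu L u k t) + C₃ * (mu L u k t * yy L u v k t) := by
      intro k _
      rcases (h0 L M m N d u v w hX k).1 with hp | ha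
      · have a1 := hgr (u k t) (v k t) (fun x => θ' x / θ x) (hX.sol.dx k t ht) (sv k) cζ
          (hp t ht) hζ hζ2
        have a2 : (∫ x in (0)..L, u k t x) * (-c₃ + C₃ * ∫ x in (0)..L, (v k t x / u k t x) ^ 2) =
            -(c₃ * mu L u k t) + C₃ * (mu L u k t * yy L u v k t) := by
          unfold mu yy
          ring
        rw [← a2]
        exact a1
      · have hnp : k ∉ PS L u := by
          intro hk'
          have b1 := (WH.H95.mem_ps.1 hk') t ht 0 h0m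
          rw [ha t ht.le 0 h0m] at b1
          exact lt_irrefl _ b1
        have b1 : (∫ x in (0)..L, θ' x / θ x * v k t x) = 0 :=
          int_zero hL fun x hx => by rw [(WH.H95.absent_zero hX hnp ht hx).2.1, mul_zero]
        have b2 : (∫ x in (0)..L, (θ' x / θ x) ^ 2 * u k t x) = 0 :=
          int_zero hL fun x hx => by rw [(WH.H95.absent_zero hX hnp ht hx).1, mul_zero]
        rw [b1, b2, (hlg t ht k).2.1 ha]
        simp
    have hk2 := Finset.sum_le_sum hk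
    rw [Finset.sum_add_distrib, Finset.sum_neg_distrib, ← Finset.mul_sum, ← Finset.mul_sum]
      at hk2
    -- coercivity
    have cW : ContinuousOn (fun x => ∑ k ∈ Finset.univ.erase i₀, u k t x) (Icc 0 L) :=
      continuousOn_finsetSum _ fun k _ => su k
    have hco := (hcoer θ θ' (u i₀ t) (v i₀ t) (fun x => ∑ k ∈ Finset.univ.erase i₀, u k t x)
      hθ.d1 cθ' (hX.sol.dx i₀ t ht) (sv i₀) cW (fun x hx => ⟨hθm x hx, hθM x hx⟩) (hpi t ht)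
      (fun x hx => Finset.sum_nonneg fun k _ => hu0 k x hx) (Vr L θ u i₀ t) rfl).2
    have eX : (∫ x in (0)..L, (u i₀ t x + (∑ k ∈ Finset.univ.erase i₀, u k t x) - θ x) ^ 2) =
        Xq L θ u t := by
      unfold Xq
      refine intervalIntegral.integral_congr fun x _ => ?_
      rw [Finset.add_sum_erase _ (fun k => u k t x) (Finset.mem_univ i₀)]
    have eW : (∫ x in (0)..L, ∑ k ∈ Finset.univ.erase i₀, u k t x) =
        ∑ k ∈ Finset.univ.erase i₀, mu L u k t := by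
      unfold mu
      exact intervalIntegral.integral_finsetSum fun k _ =>
        (su k).intervalIntegrable_of_Icc hL.le
    rw [eX, eW] at hco
    change Vr L θ u i₀ t / (1 + Vr L θ u i₀ t) ≤ C₆ * (Xq L θ u t + Rq L θ θ' u v i₀ t +
      ∑ k ∈ Finset.univ.erase i₀, mu L u k t) at hco
    have hXq : 0 ≤ Xq L θ u t := by
      unfold Xq
      exact intervalIntegral.integral_nonneg hL.le fun x _ => sq_nonneg _
    have hRq : 0 ≤ Rq L θ θ' u v i₀ t := by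
      unfold Rq
      exact intervalIntegral.integral_nonneg hL.le fun x _ => sq_nonneg _
    have hW0 : 0 ≤ ∑ k ∈ Finset.univ.erase i₀, mu L u k t :=
      Finset.sum_nonneg fun k _ => (hlg t ht k).1
    -- `y₀`
    have hy : yy L u v i₀ t ≤ 2 * L * Z ^ 2 + 2 * Rq L θ θ' u v i₀ t := by
      have cp : ContinuousOn (fun x => v i₀ t x / u i₀ t x) (Icc 0 L) :=
        (sv i₀).div (su i₀) fun x hx => (hpi t ht x hx).ne'
      have c1 : IntervalIntegrable (fun x => (v i₀ t x / u i₀ t x) ^ 2) volume 0 L :=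
        (cp.pow 2).intervalIntegrable_of_Icc hL.le
      have c2 : IntervalIntegrable (fun x => 2 * (v i₀ t x / u i₀ t x - θ' x / θ x) ^ 2)
          volume 0 L := (((cp.sub cζ).pow 2).const_mul 2).intervalIntegrable_of_Icc hL.le
      have c3 : IntervalIntegrable (fun _ : ℝ => 2 * Z ^ 2) volume 0 L :=
        intervalIntegrable_const
      have c4 := intervalIntegral.integral_mono_on hL.le c1 (c3.add c2) (fun x hx => by
        have c5 : (θ' x / θ x) ^ 2 ≤ Z ^ 2 := sq_le_sq' (abs_le.1 (hζ x hx)).1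
          (abs_le.1 (hζ x hx)).2
        have c6 := sq_nonneg ((v i₀ t x / u i₀ t x - θ' x / θ x) - θ' x / θ x)
        show (v i₀ t x / u i₀ t x) ^ 2 ≤ 2 * Z ^ 2 +
          2 * (v i₀ t x / u i₀ t x - θ' x / θ x) ^ 2
        nlinarith)
      rw [intervalIntegral.integral_add c3 c2, intervalIntegral.integral_const,
        intervalIntegral.integral_const_mul, smul_eq_mul, sub_zero] at c4
      unfold yy Rq
      linarith
    have fin := rex_alg (V' := V') (S := ∑ k ∈ Finset.univ.erase i₀, mu L u k t * yy L u v k t)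
      (Lam' := Λ' t) (C₃ := C₃) hL hZ hXq hRq hW0 hV0 hd hd1 hC₆ hc₇ hc₇1 hc₇2 hc₇3 hσ hσ1 hσ2
      hco (hV2.trans (by
        have := mul_le_mul_of_nonneg_left hk2 hd.le
        linarith)) hl4 hy
    have e1 : (1 + 1 / Vr L θ u i₀ t) * V' = V' + V' / Vr L θ u i₀ t := by
      ring
    rw [e1] at fin
    exact fin
  have key2 := FC.H54.linear_decay key
  obtain ⟨F0, hF0⟩ : ∃ F0 : ℝ, F0 = Vr L θ u i₀ T + Real.log (Vr L θ u i₀ T) - Λ T := ⟨_, rfl⟩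
  obtain ⟨c, hce⟩ : ∃ c : ℝ, c = d i₀ * c₇ / (2 * C₆) := ⟨_, rfl⟩
  have hc : 0 < c := by rw [hce]; positivity
  refine h10 L M (L * c) (L * (F0 + c * T + C' - σ * (L * Real.log m₀ - L) - Real.log L)) K T m N
    d u v w j hX hpj hT0 (by positivity) (fun t htT => hK t (hT₂T.trans htT)) fun t htT => ?_
  have ht : 0 < t := lt_of_lt_of_le hT0 htT
  have g1 := key2 t htT
  rw [← hF0, ← hce] at g1
  have g2 := (hΛa t (hT₁T.trans htT)).2.1
  have g3 := ((hlg t ht i₀).2.2.2 hpi).2.2.2.2.2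
  have hV0 := hVpos t ht
  have g4 : σ * (L * Real.log m₀ - L - Vr L θ u i₀ t / m₀) ≤ σ * lg L u i₀ t :=
    mul_le_mul_of_nonneg_left g3 hσ
  have g5 : σ * (Vr L θ u i₀ t / m₀) ≤ Vr L θ u i₀ t := by
    have : σ / m₀ ≤ 1 := by
      rw [div_le_one hm₀]
      linarith
    calc σ * (Vr L θ u i₀ t / m₀) = σ / m₀ * Vr L θ u i₀ t := by ring
      _ ≤ 1 * Vr L θ u i₀ t := mul_le_mul_of_nonneg_right this hV0.le
      _ = Vr L θ u i₀ t := one_mul _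
  have g6 : Real.log (Vr L θ u i₀ t) ≤
      F0 + c * T + C' - σ * (L * Real.log m₀ - L) - c * t := by
    have g7 : σ * (L * Real.log m₀ - L - Vr L θ u i₀ t / m₀) =
      σ * (L * Real.log m₀ - L) - σ * (Vr L θ u i₀ t / m₀) := by ring
    rw [g7] at g4
    linarith
  have g8 := ((hlg t ht j).2.2.2 hpj).2.2.2.1
  have g9 := ((hlg t ht j).2.2.2 hpj).1
  have g10 : Real.log (mu L u j t / L) ≤ Real.log (Vr L θ u i₀ t) - Real.log L := by
    rw [Real.log_div g9.ne' hL.ne']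
    have := Real.log_le_log g9 (hmuV t ht)
    linarith
  have g11 : L * Real.log (mu L u j t / L) ≤
      L * (F0 + c * T + C' - σ * (L * Real.log m₀ - L) - c * t - Real.log L) :=
    mul_le_mul_of_nonneg_left (by linarith) hL.le
  calc lg L u j t ≤ L * Real.log (mu L u j t / L) := g8
    _ ≤ L * (F0 + c * T + C' - σ * (L * Real.log m₀ - L) - c * t - Real.log L) := g11
    _ = _ := by ring

end Pool.Agent.Lib.MP_4fbe7c_an.RS.H54
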