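import Pool.Agent.Lib.MP_4fbe7c_an.RS.Iface
import Pool.Agent.Lib.MP_4fbe7c_an.WH.H30.Osc

/-!
Project RS (MP_4fbe7c_an), module RGR: a species with a flat profile loses (calculus).
-/

set_option autoImplicit false

open Set Filter Topology MeasureTheory intervalIntegral
open scoped Interval

namespace Pool.Agent.Lib.MP_4fbe7c_an.RS.H54

open Pool.Agent.Lib.MP_4fbe7c_an.SD Pool.Agent.Lib.MP_4fbe7c_an.FC
  Pool.Agent.Lib.MP_4fbe7c_an.WH

/-- oscillation bounded by the total variation -/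
theorem rgr_osc {L : ℝ} (hL : 0 < L) {f f' : ℝ → ℝ} (hf : DerivOn L f f')
    (hfc : ContinuousOn f' (Icc 0 L)) {a b : ℝ} (ha : a ∈ Icc 0 L) (hb : b ∈ Icc 0 L)
    (hab : a ≤ b) : |f b - f a| ≤ ∫ x in (0)..L, |f' x| := by
  have hsub : Icc a b ⊆ Icc 0 L := Icc_subset_Icc ha.1 hb.2
  have hint : IntervalIntegrable f' volume a b :=
    (hfc.mono hsub).intervalIntegrable_of_Icc hab
  have h1 : ∫ x in a..b, f' x = f b - f a := by
    apply intervalIntegral.integral_eq_sub_of_hasDeriv_right_of_le hab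
      (hf.continuousOn.mono hsub)
    · intro x hx
      have hx' : x ∈ Ioo 0 L := ⟨lt_of_le_of_lt ha.1 hx.1, lt_of_lt_of_le hx.2 hb.2⟩
      have h2 := (hf x (Ioo_subset_Icc_self hx')).hasDerivAt (Icc_mem_nhds hx'.1 hx'.2)
      exact h2.hasDerivWithinAt
    · exact hint
  rw [← h1]
  have h3 : |∫ x in a..b, f' x| ≤ ∫ x in a..b, |f' x| :=
    intervalIntegral.abs_integral_le_integral_abs hab
  have habs : ContinuousOn (fun x => |f' x|) (Icc 0 L) := hfc.abs
  have iabs : IntervalIntegrable (fun x => |f' x|) volume 0 L :=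
    habs.intervalIntegrable_of_Icc hL.le
  have h4 : ∫ x in a..b, |f' x| ≤ ∫ x in (0)..L, |f' x| := by
    apply intervalIntegral.integral_mono_interval ha.1 hab hb.2
    · exact Filter.Eventually.of_forall fun x => abs_nonneg _
    · exact iabs
  linarith

theorem rgr : RgrStatement := by
  intro L Z c₂ hL hZ hc₂
  set C2 : ℝ := Z + L * Z ^ 2 / 3 with hC2
  have hC20 : 0 < C2 := by positivity
  set e : ℝ := c₂ / (6 * L * C2) with he
  have he0 : 0 < e := by positivity
  refine ⟨c₂ / (6 * L), C2 * (1 + 1 / (4 * e * L)), by positivity, by positivity, ?_⟩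
  intro f f' ζ hf hfc hζ hfp hζb hζ2
  have hfcont : ContinuousOn f (Icc 0 L) := hf.continuousOn
  have habs : ContinuousOn (fun x => |f' x|) (Icc 0 L) := hfc.abs
  have hqc : ContinuousOn (fun x => (f' x / f x) ^ 2) (Icc 0 L) :=
    (hfc.div hfcont fun x hx => (hfp x hx).ne').pow 2
  have if1 : IntervalIntegrable f volume 0 L := hfcont.intervalIntegrable_of_Icc hL.le
  have if2 : IntervalIntegrable (fun x => f x ^ 2) volume 0 L :=
    (hfcont.pow 2).intervalIntegrable_of_Icc hL.le
  have iabs : IntervalIntegrable (fun x => |f' x|) volume 0 L :=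
    habs.intervalIntegrable_of_Icc hL.le
  have iq : IntervalIntegrable (fun x => (f' x / f x) ^ 2) volume 0 L :=
    hqc.intervalIntegrable_of_Icc hL.le
  have iζ : IntervalIntegrable (fun x => ζ x ^ 2) volume 0 L :=
    (hζ.pow 2).intervalIntegrable_of_Icc hL.le
  have iζf' : IntervalIntegrable (fun x => ζ x * f' x) volume 0 L :=
    (hζ.mul hfc).intervalIntegrable_of_Icc hL.le
  have iζf : IntervalIntegrable (fun x => ζ x ^ 2 * f x) volume 0 L :=
    ((hζ.pow 2).mul hfcont).intervalIntegrable_of_Icc hL.le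
  set T : ℝ := ∫ x in (0)..L, |f' x| with hT
  set μ : ℝ := ∫ x in (0)..L, f x with hμ
  set y : ℝ := ∫ x in (0)..L, (f' x / f x) ^ 2 with hy
  set A : ℝ := ∫ x in (0)..L, f x ^ 2 with hA
  have hT0 : 0 ≤ T := integral_nonneg hL.le fun x _ => abs_nonneg _
  have hy0 : 0 ≤ y := integral_nonneg hL.le fun x _ => sq_nonneg _
  have hμ0 : 0 < μ := by
    apply intervalIntegral.intervalIntegral_pos_of_pos_on if1 _ hL
    intro x hx
    exact hfp x (Ioo_subset_Icc_self hx)
  have hA0 : 0 < A := by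
    apply intervalIntegral.intervalIntegral_pos_of_pos_on if2 _ hL
    intro x hx
    have := hfp x (Ioo_subset_Icc_self hx)
    positivity
  have hosc : ∀ x ∈ Icc 0 L, ∀ z ∈ Icc 0 L, |f x - f z| ≤ T := by
    intro x hx z hz
    rcases le_total x z with h | h
    · rw [abs_sub_comm]; exact rgr_osc hL hf hfc hx hz h
    · exact rgr_osc hL hf hfc hz hx h
  -- pointwise bounds by the mean
  have hup : ∀ x ∈ Icc 0 L, f x ≤ μ / L + T := by
    intro x hx
    have h1 : ∫ z in (0)..L, (f x - T) ≤ ∫ z in (0)..L, f z := by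
      apply integral_mono_on hL.le intervalIntegrable_const if1
      intro z hz
      have := (abs_le.1 (hosc x hx z hz)).2
      linarith
    rw [intervalIntegral.integral_const, smul_eq_mul, sub_zero] at h1
    have h2 : f x - T ≤ μ / L := by
      rw [le_div_iff₀ hL]; linarith
    linarith
  have hlo : ∀ x ∈ Icc 0 L, μ / L - T ≤ f x := by
    intro x hx
    have h1 : ∫ z in (0)..L, f z ≤ ∫ z in (0)..L, (f x + T) := by
      apply integral_mono_on hL.le if1 intervalIntegrable_const
      intro z hz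
      have := (abs_le.1 (hosc x hx z hz)).1
      linarith
    rw [intervalIntegral.integral_const, smul_eq_mul, sub_zero] at h1
    have h2 : μ / L ≤ f x + T := by
      rw [div_le_iff₀ hL]; linarith
    linarith
  have hA1 : A ≤ (μ / L + T) * μ := by
    rw [hA, hμ, ← intervalIntegral.integral_const_mul]
    apply integral_mono_on hL.le if2 (if1.const_mul _)
    intro x hx
    have h1 := hup x hx
    have h2 := hfp x hx
    have h3 : f x * f x ≤ (μ / L + T) * f x := mul_le_mul_of_nonneg_right h1 h2.le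
    rw [← hμ]
    calc f x ^ 2 = f x * f x := by ring
      _ ≤ _ := h3
  -- Cauchy-Schwarz
  have hcs : T ^ 2 ≤ A * y := by
    have h1 : 2 * (T / A) * T ≤ (T / A) ^ 2 * A + y := by
      rw [hA, hy, hT]
      rw [← hA, ← hT, ← intervalIntegral.integral_const_mul, ← intervalIntegral.integral_const_mul]
      rw [← intervalIntegral.integral_add (if2.const_mul _) iq]
      apply integral_mono_on hL.le (iabs.const_mul _) ((if2.const_mul _).add iq)
      intro x hx
      have h2 := hfp x hx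
      have h3 : |f' x| = f x * (|f' x| / f x) := by field_simp
      have h4 : (f' x / f x) ^ 2 = (|f' x| / f x) ^ 2 := by
        rw [div_pow, div_pow, sq_abs]
      rw [h4]
      have h5 := sq_nonneg (T / A * f x - |f' x| / f x)
      have h6 : (T / A * f x - |f' x| / f x) ^ 2 =
          (T / A) ^ 2 * f x ^ 2 + (|f' x| / f x) ^ 2 - 2 * (T / A) * (f x * (|f' x| / f x)) := by
        ring
      rw [h6, ← h3] at h5
      linarith
    have h2 : 2 * (T / A) * T = 2 * (T ^ 2 / A) := by ring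
    have h3 : (T / A) ^ 2 * A = T ^ 2 / A := by field_simp
    rw [h2, h3] at h1
    have h4 : T ^ 2 / A ≤ y := by linarith
    rw [div_le_iff₀ hA0] at h4
    linarith
  have hT2 : T ^ 2 ≤ (μ / L + T) * μ * y := hcs.trans (mul_le_mul_of_nonneg_right hA1 hy0)
  have hTle : T ≤ μ * (e + y + y / (4 * e * L)) := by
    by_contra hcon
    push Not at hcon
    have h1 : 0 < e + y / (4 * e * L) := by positivity
    have h2 : μ * (e + y / (4 * e * L)) < T - μ * y := by
      have : μ * (e + y + y / (4 * e * L)) = μ * (e + y / (4 * e * L)) + μ * y := by ring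
      linarith
    have h3 : μ * (e + y / (4 * e * L)) ≤ T := by
      have : 0 ≤ μ * y := by positivity
      linarith
    have h4 : (μ * (e + y / (4 * e * L))) * (μ * (e + y / (4 * e * L))) < T * (T - μ * y) := by
      have h5 : 0 < μ * (e + y / (4 * e * L)) := by positivity
      have h6 : 0 < T := lt_of_lt_of_le h5 h3
      calc (μ * (e + y / (4 * e * L))) * (μ * (e + y / (4 * e * L)))
          ≤ T * (μ * (e + y / (4 * e * L))) := mul_le_mul_of_nonneg_right h3 h5.le
        _ < T * (T - μ * y) := mul_lt_mul_of_pos_left h2 h6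
    have h5 : μ ^ 2 * (y / L) ≤ (μ * (e + y / (4 * e * L))) * (μ * (e + y / (4 * e * L))) := by
      have h6 : (e + y / (4 * e * L)) ^ 2 - y / L = (e - y / (4 * e * L)) ^ 2 := by
        field_simp; ring
      have h7 : y / L ≤ (e + y / (4 * e * L)) ^ 2 := by
        have := sq_nonneg (e - y / (4 * e * L))
        linarith
      calc μ ^ 2 * (y / L) ≤ μ ^ 2 * (e + y / (4 * e * L)) ^ 2 :=
            mul_le_mul_of_nonneg_left h7 (sq_nonneg _)
        _ = _ := by ring
    have h6 : (μ / L + T) * μ * y = μ ^ 2 * (y / L) + T * (μ * y) := by ring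
    have h7 : T * (T - μ * y) = T ^ 2 - T * (μ * y) := by ring
    rw [h7] at h4
    rw [h6] at hT2
    linarith
  -- the two terms
  have ha : ∫ x in (0)..L, ζ x * f' x ≤ Z * T := by
    rw [hT, ← intervalIntegral.integral_const_mul]
    apply integral_mono_on hL.le iζf' (iabs.const_mul _)
    intro x hx
    calc ζ x * f' x ≤ |ζ x * f' x| := le_abs_self _
      _ = |ζ x| * |f' x| := abs_mul _ _
      _ ≤ Z * |f' x| := mul_le_mul_of_nonneg_right (hζb x hx) (abs_nonneg _)
  have hb1 : ∫ x in (0)..L, ζ x ^ 2 ≤ L * Z ^ 2 := by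
    have h1 : ∫ x in (0)..L, ζ x ^ 2 ≤ ∫ _x in (0)..L, Z ^ 2 := by
      apply integral_mono_on hL.le iζ intervalIntegrable_const
      intro x hx
      rw [← sq_abs]
      exact pow_le_pow_left₀ (abs_nonneg _) (hζb x hx) 2
    rw [intervalIntegral.integral_const, smul_eq_mul, sub_zero] at h1
    exact h1
  have hb : (μ / L - T) * (∫ x in (0)..L, ζ x ^ 2) ≤ ∫ x in (0)..L, ζ x ^ 2 * f x := by
    rw [← intervalIntegral.integral_const_mul]
    apply integral_mono_on hL.le (iζ.const_mul _) iζf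
    intro x hx
    have h1 := hlo x hx
    calc (μ / L - T) * ζ x ^ 2 ≤ f x * ζ x ^ 2 := mul_le_mul_of_nonneg_right h1 (sq_nonneg _)
      _ = ζ x ^ 2 * f x := by ring
  have hb2 : μ / L * c₂ - T * (L * Z ^ 2) ≤ (μ / L - T) * (∫ x in (0)..L, ζ x ^ 2) := by
    have h1 : μ / L * c₂ ≤ μ / L * (∫ x in (0)..L, ζ x ^ 2) :=
      mul_le_mul_of_nonneg_left hζ2 (by positivity)
    have h2 : T * (∫ x in (0)..L, ζ x ^ 2) ≤ T * (L * Z ^ 2) :=
      mul_le_mul_of_nonneg_left hb1 hT0
    have h3 : (μ / L - T) * (∫ x in (0)..L, ζ x ^ 2) =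
      μ / L * (∫ x in (0)..L, ζ x ^ 2) - T * (∫ x in (0)..L, ζ x ^ 2) := by ring
    linarith
  have hfin1 : (∫ x in (0)..L, ζ x * f' x) - 1 / 3 * (∫ x in (0)..L, ζ x ^ 2 * f x) ≤
      C2 * T - μ / L * c₂ / 3 := by
    have h1 : C2 * T = Z * T + 1 / 3 * (T * (L * Z ^ 2)) := by rw [hC2]; ring
    rw [h1]
    linarith
  have hfin2 : C2 * T ≤ C2 * (μ * (e + y + y / (4 * e * L))) :=
    mul_le_mul_of_nonneg_left hTle hC20.le
  have hCe : C2 * e = c₂ / (6 * L) := by rw [he]; field_simp
  have hfin3 : C2 * (μ * (e + y + y / (4 * e * L))) =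
      μ * (C2 * e) + μ * (C2 * (1 + 1 / (4 * e * L)) * y) := by ring
  rw [hfin3, hCe] at hfin2
  have hfin4 : μ / L * c₂ / 3 = μ * (c₂ / (6 * L)) + μ * (c₂ / (6 * L)) := by
    field_simp; ring
  calc (∫ x in (0)..L, ζ x * f' x) - 1 / 3 * (∫ x in (0)..L, ζ x ^ 2 * f x)
      ≤ C2 * T - μ / L * c₂ / 3 := hfin1
    _ ≤ μ * (c₂ / (6 * L)) + μ * (C2 * (1 + 1 / (4 * e * L)) * y) - μ / L * c₂ / 3 := by linarith
    _ = μ * (-(c₂ / (6 * L)) + C2 * (1 + 1 / (4 * e * L)) * y) := by rw [hfin4]; ring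

end Pool.Agent.Lib.MP_4fbe7c_an.RS.H54
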